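import Pool.Agent.H7.HD.Targets11
import Pool.Agent.H7.HD.All6

/-!
# MP_e37c09_lc, module SRG: the successor cardinals of HOD are regular in HOD
-/

set_option autoImplicit false

open Ordinal Cardinal Order Set
open scoped ZFSet

universe u

namespace Pool.Agent.H77.HDA.SRG

open _root_.HD
open Pool.Agent.H54.CL (onto_of onto_fun onto_le onto_small)

/-! ## The pairing function -/

theorem do_tp : DO.{u} fun w => w 2 = tp (w 0) (w 1) := by
  have h : DZ.{u} fun v => ∃ x : ZFSet.{u}, ((v 2).IsOrdinal ∧ x = pz (v 2).rank) ∧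
        x = ZFSet.pair (v 0) (v 1) :=
      DZ.ex ((dz_pz.ren fun n => if n = 0 then 3 else 0).and (dz_pair _ _ _))
  refine h.do.congr fun w => ?_
  have e1 : (ov w 2).rank = w 2 := rank_toZFSet _
  show _ ↔ ∃ x : ZFSet.{u}, ((ov w 2).IsOrdinal ∧ x = pz (ov w 2).rank) ∧
    x = ZFSet.pair (ov w 0) (ov w 1)
  rw [e1]
  constructor
  · intro h
    refine ⟨_, ⟨ZFSet.isOrdinal_toZFSet _, rfl⟩, ?_⟩
    rw [h]
    unfold pz
    rw [pe_tp]
    rfl
  · rintro ⟨x, ⟨-, rfl⟩, h⟩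
    obtain ⟨h1, h2⟩ := pair_ord_inj h
    apply pe_inj
    rw [pe_tp]
    exact Prod.ext h1 h2

theorem tp_inj {a b a' b' : Ordinal.{u}} (h : tp a b = tp a' b') : a = a' ∧ b = b' := by
  have h1 := pe_tp a b
  rw [h, pe_tp] at h1
  exact ⟨(congrArg Prod.fst h1).symm, (congrArg Prod.snd h1).symm⟩

/-! ## Surjections in HOD -/

/-- a surjection is given by a functional relation which is not necessarily total -/
theorem onto_partial {γ β : Ordinal.{u}} {R : Ordinal.{u} → Ordinal.{u} → Prop} (hR : DR R)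
    (h0 : 0 < β) (h2 : ∀ a < γ, ∀ b b', R a b → R a b' → b = b')
    (h3 : ∀ b < β, ∃ a < γ, R a b) : OntoHOD γ β := by
  refine onto_of (R := fun a b => (R a b ∧ b < β) ∨ ((¬ ∃ c < β, R a c) ∧ b = 0)) ?_
    (fun a ha => ?_) (fun a ha b b' hb hb' => ?_) fun b hb => ?_
  · refine ((DO.s2 hR 0 1).and (DO.ltc 1 β)).or (DO.not ?_ |>.and (DO.eqc 1 0))
    exact DO.exLtc (R := fun c w => R (w 0) c) β (DO.s2 hR 1 0)
  · by_cases hex : ∃ c < β, R a c
    · obtain ⟨c, hc, hac⟩ := hex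
      exact ⟨c, hc, Or.inl ⟨hac, hc⟩⟩
    · exact ⟨0, h0, Or.inr ⟨hex, rfl⟩⟩
  · rcases hb with hb | hb <;> rcases hb' with hb' | hb'
    · exact h2 a ha _ _ hb.1 hb'.1
    · exact absurd ⟨b, hb.2, hb.1⟩ hb'.1
    · exact absurd ⟨b', hb'.2, hb'.1⟩ hb.1
    · rw [hb.2, hb'.2]
  · obtain ⟨a, ha, hab⟩ := h3 b hb
    exact ⟨a, ha, Or.inl ⟨hab, hb⟩⟩

theorem onto_comp {α β γ : Ordinal.{u}} (h : OntoHOD α β) (h' : OntoHOD β γ) :
    OntoHOD α γ := by
  obtain ⟨R, hR, h1, h2, h3⟩ := onto_fun h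
  obtain ⟨R', hR', h1', h2', h3'⟩ := onto_fun h'
  refine onto_of (R := fun a c => ∃ b < β, R a b ∧ R' b c) ?_ (fun a ha => ?_)
    (fun a ha c c' hc hc' => ?_) fun c hc => ?_
  · exact DO.exLtc (R := fun b w => R (w 0) b ∧ R' b (w 1)) β ((DO.s2 hR 1 0).and (DO.s2 hR' 0 2))
  · obtain ⟨b, hb, hab⟩ := h1 a ha
    obtain ⟨c, hc, hbc⟩ := h1' b hb
    exact ⟨c, hc, b, hb, hab, hbc⟩
  · obtain ⟨b, hb, h4, h5⟩ := hc
    obtain ⟨b', -, h4', h5'⟩ := hc'
    have := h2 a ha _ _ h4 h4'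
    subst this
    exact h2' b hb _ _ h5 h5'
  · obtain ⟨b, hb, hbc⟩ := h3' c hc
    obtain ⟨a, ha, hab⟩ := h3 b hb
    exact ⟨a, ha, b, hb, hab, hbc⟩

theorem onto_q {q : Ordinal.{u} → Ordinal.{u}} {e m : Ordinal.{u} → Ordinal.{u} → Ordinal.{u}}
    (h : QEM q e m) (b : Ordinal.{u}) : OntoHOD (q b) b := by
  refine onto_of (R := fun x z => z = e b x) ?_ (fun a ha => ⟨_, h.em.el b a ha, rfl⟩)
    (fun a ha c c' hc hc' => hc.trans hc'.symm) fun z hz => ⟨m b z, h.em.ml b z hz,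
      (h.em.em b z hz).symm⟩
  refine DO.sub b (R := fun s w => w 1 = e s (w 0)) ?_
  exact DO.s3 (X := fun a b c => c = e a b) h.de 0 1 2

/-- infinite cardinals of HOD are limit ordinals -/
theorem succ_lt {τ : Ordinal.{u}} (hc : CardHOD τ) (hω : ω ≤ τ) {x : Ordinal.{u}} (hx : x < τ) :
    x + 1 < τ := by
  by_contra hcon
  push Not at hcon
  have hxt : τ = x + 1 := le_antisymm hcon (by
    rw [← Order.succ_eq_add_one]
    exact Order.succ_le_of_lt hx)
  have hωx : ω ≤ x := by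
    by_contra hlt
    push Not at hlt
    have := Ordinal.isSuccLimit_omega0.add_one_lt hlt
    rw [← hxt] at this
    exact absurd hω (not_le.2 this)
  refine hc x hx ?_
  refine onto_partial (R := fun a b => (a = 0 ∧ b = x) ∨ (a < ω ∧ b < a ∧ ∀ z < a, z ≤ b) ∨
    (ω ≤ a ∧ b = a)) ?_ (lt_of_le_of_lt bot_le hx) (fun a ha b b' hb hb' => ?_) fun b hb => ?_
  · refine ((DO.eqc 0 0).and (DO.eqc 1 x)).or (((DO.ltc 0 ω).and ((DO.lt 1 0).and ?_)).or
      ((DO.gec 0 ω).and (DO.eq 1 0)))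
    exact DO.allLt (R := fun z w => z ≤ w 1) 0 (DO.le 0 2)
  · rcases hb with ⟨rfl, hb⟩ | ⟨h1, h2, h3⟩ | ⟨h1, h2⟩
    · rcases hb' with ⟨-, hb'⟩ | ⟨h4, h5, h6⟩ | ⟨h4, h5⟩
      · rw [hb, hb']
      · exact absurd h5 (not_lt.2 bot_le)
      · exact absurd h4 (not_le.2 Ordinal.omega0_pos)
    · rcases hb' with ⟨rfl, hb'⟩ | ⟨h4, h5, h6⟩ | ⟨h4, h5⟩
      · exact absurd h2 (not_lt.2 bot_le)
      · exact le_antisymm (h6 _ h2) (h3 _ h5)
      · exact absurd h4 (not_le.2 h1)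
    · rcases hb' with ⟨rfl, hb'⟩ | ⟨h4, h5, h6⟩ | ⟨h4, h5⟩
      · exact absurd h1 (not_le.2 Ordinal.omega0_pos)
      · exact absurd h1 (not_le.2 h4)
      · rw [h2, h5]
  · rcases lt_or_ge b x with h | h
    · rcases lt_or_ge b ω with h1 | h1
      · have h2 := Ordinal.isSuccLimit_omega0.add_one_lt h1
        refine ⟨b + 1, h2.trans_le hωx, Or.inr (Or.inl ⟨h2, _root_.lt_add_one b, fun z hz => ?_⟩)⟩
        rw [← Order.succ_eq_add_one, Order.lt_succ_iff] at hz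
        exact hz
      · exact ⟨b, h, Or.inr (Or.inr ⟨h1, rfl⟩)⟩
    · have hbx : b = x := le_antisymm (by
        rw [hxt, ← Order.succ_eq_add_one, Order.lt_succ_iff] at hb
        exact hb) h
      exact ⟨0, Ordinal.omega0_pos.trans_le hωx, Or.inl ⟨rfl, hbx⟩⟩

theorem qω {q : Ordinal.{u} → Ordinal.{u}} {e m : Ordinal.{u} → Ordinal.{u} → Ordinal.{u}}
    (h : QEM q e m) {b : Ordinal.{u}} (hb : ω ≤ b) : ω ≤ q b := by
  rw [← Cardinal.ord_aleph0] at hb ⊢
  exact (All.qk q e m h ℵ₀ (b + 1) b hb (_root_.lt_add_one b)).1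

/-- the theorem of Hessenberg in HOD -/
theorem hess {q : Ordinal.{u} → Ordinal.{u}} {e m : Ordinal.{u} → Ordinal.{u} → Ordinal.{u}}
    (h : QEM q e m) (x : Ordinal.{u}) : CardHOD x → ω ≤ x → ∀ a < x, ∀ b < x, tp a b < x := by
  induction x using WellFoundedLT.induction with
  | ind x ih =>
    intro hc hω a ha b hb
    by_contra hcon
    push Not at hcon
    rcases lt_or_ge (max a b) ω with hm | hm
    · have h1 : tp a b < (ℵ₀ : Cardinal.{u}).ord := by
        refine tp_lt le_rfl ?_ ?_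
        · rw [Cardinal.ord_aleph0]
          exact (le_max_left _ _).trans_lt hm
        · rw [Cardinal.ord_aleph0]
          exact (le_max_right _ _).trans_lt hm
      rw [Cardinal.ord_aleph0] at h1
      exact absurd (h1.trans_le hω) (not_lt.2 hcon)
    · obtain ⟨s, hs⟩ : ∃ s, s = max a b + 1 := ⟨_, rfl⟩
      have hsx : s < x := by
        rw [hs]
        exact succ_lt hc hω (max_lt ha hb)
      have hωs : ω ≤ s := by
        rw [hs]
        exact hm.trans (_root_.lt_add_one _).le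
      have hy : q s < x := (h.em.ql s).trans_lt hsx
      have hih := ih (q s) hy (h.card s) (qω h hωs)
      refine hc (q s) hy ?_
      refine onto_partial (R := fun c' c => ∃ a' < s, ∃ b' < s, c = tp a' b' ∧
        ∃ i, i = m s a' ∧ ∃ j, j = m s b' ∧ c' = tp i j) ?_ (lt_of_le_of_lt bot_le ha)
        (fun c' hc' c1 c2 h1 h2 => ?_) fun c hcx => ?_
      · refine DO.exLtc (R := fun a' w => ∃ b' < s, w 1 = tp a' b' ∧
          ∃ i, i = m s a' ∧ ∃ j, j = m s b' ∧ w 0 = tp i j) s ?_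
        refine DO.exLtc (R := fun b' w => w 2 = tp (w 0) b' ∧
          ∃ i, i = m s (w 0) ∧ ∃ j, j = m s b' ∧ w 1 = tp i j) s ?_
        refine (DO.s3 (X := fun a b c => c = tp a b) do_tp 1 0 3).and ?_
        refine DO.ex (R := fun i w => i = m s (w 1) ∧ ∃ j, j = m s (w 0) ∧ w 2 = tp i j) ?_
        refine DO.and ?_ ?_
        · refine DO.sub s (R := fun s w => w 0 = m s (w 2)) ?_
          exact DO.s3 (X := fun a b c => c = m a b) h.dm 0 3 1
        · refine DO.ex (R := fun j w => j = m s (w 1) ∧ w 3 = tp (w 0) j) ?_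
          refine DO.and ?_ ?_
          · refine DO.sub s (R := fun s w => w 0 = m s (w 2)) ?_
            exact DO.s3 (X := fun a b c => c = m a b) h.dm 0 3 1
          · exact DO.s3 (X := fun a b c => c = tp a b) do_tp 1 0 4
      · obtain ⟨a1, ha1, b1, hb1, rfl, i1, rfl, j1, rfl, h3⟩ := h1
        obtain ⟨a2, ha2, b2, hb2, rfl, i2, rfl, j2, rfl, h4⟩ := h2
        obtain ⟨h5, h6⟩ := tp_inj (h3.symm.trans h4)
        have h7 : a1 = a2 := by rw [← h.em.em s a1 ha1, h5, h.em.em s a2 ha2]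
        have h8 : b1 = b2 := by rw [← h.em.em s b1 hb1, h6, h.em.em s b2 hb2]
        rw [h7, h8]
      · have hlt : c < tp a b := hcx.trans_le hcon
        have h1 : max (pe c).1 (pe c).2 ≤ max a b := by
          refine pe_max (p := (a, b)) fun d hd he => ?_
          have h2 : tp a b = d := pe_inj (by rw [pe_tp, he])
          rw [← h2] at hd
          exact absurd hd (not_lt.2 hlt.le)
        have h2 : (pe c).1 < s := by
          rw [hs]
          exact ((le_max_left _ _).trans h1).trans_lt (_root_.lt_add_one _)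
        have h3 : (pe c).2 < s := by
          rw [hs]
          exact ((le_max_right _ _).trans h1).trans_lt (_root_.lt_add_one _)
        refine ⟨tp (m s (pe c).1) (m s (pe c).2), hih _ (h.em.ml s _ h2) _ (h.em.ml s _ h3),
          (pe c).1, h2, (pe c).2, h3, pe_inj ?_, _, rfl, _, rfl, rfl⟩
        rw [pe_tp]

theorem srg : T_SRG.{u} := by
  rintro τ hτ hω ⟨σ, hσ, hno⟩
  obtain ⟨q, e, m, h⟩ := All.qe.{u}
  have hlim : IsSuccLimit τ := by
    refine ⟨fun hmin => ?_, ?_⟩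
    · have h0 : (0 : Ordinal.{u}) < τ := lt_of_le_of_lt bot_le hω
      have := hmin.eq_bot
      rw [this] at h0
      exact absurd h0 (lt_irrefl _)
    · intro y hy
      exact hy.2 (_root_.lt_add_one y) (succ_lt hτ hω.le hy.1)
  refine ⟨hlim, ?_⟩
  rintro ⟨ρ, hρ, f, hf, hfn, hcof⟩
  obtain ⟨s, hs⟩ : ∃ s, s = max σ ω := ⟨_, rfl⟩
  have hsτ : s < τ := by
    rw [hs]
    exact max_lt hσ hω
  have hωs : ω ≤ s := by
    rw [hs]
    exact le_max_right _ _
  have hq : ∀ x < τ, q x ≤ s := by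
    intro x hx
    by_contra hlt
    push Not at hlt
    refine hno (q x) ?_ ((h.em.ql x).trans_lt hx) (h.card x)
    refine lt_of_le_of_lt ?_ hlt
    rw [hs]
    exact le_max_left _ _
  have hμτ : q s < τ := (h.em.ql s).trans_lt hsτ
  have h0 : (0 : Ordinal.{u}) < τ := lt_of_le_of_lt bot_le hω
  have hρ0 : 0 < ρ := by
    obtain ⟨a, ha, -⟩ := hcof 0 h0
    exact lt_of_le_of_lt bot_le ha
  have hqρ : 0 < q ρ := lt_of_le_of_lt bot_le (h.em.ml ρ 0 hρ0)
  have hμρ : OntoHOD (q s) ρ :=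
    onto_comp (onto_comp (onto_q h s) (onto_small hqρ (hq ρ hρ))) (onto_q h ρ)
  obtain ⟨R0, hR0, -, h2, h3⟩ := onto_fun hμρ
  have hF : DR fun a c => ZFSet.pair a.toZFSet c.toZFSet ∈ f := hf.od.dr
  have hFt : ∀ a < ρ, ∀ c : Ordinal.{u}, ZFSet.pair a.toZFSet c.toZFSet ∈ f → c < τ := by
    intro a ha c hc
    have h4 := hfn.1 hc
    rw [ZFSet.pair_mem_prod] at h4
    exact toZFSet_mem_toZFSet_iff.1 h4.2
  have hFu : ∀ a < ρ, ∀ c c' : Ordinal.{u}, ZFSet.pair a.toZFSet c.toZFSet ∈ f →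
      ZFSet.pair a.toZFSet c'.toZFSet ∈ f → c = c' := by
    intro a ha c c' hc hc'
    obtain ⟨w, -, hw⟩ := hfn.2 a.toZFSet (toZFSet_mem_toZFSet_iff.2 ha)
    exact toZFSet_injective ((hw _ hc).trans (hw _ hc').symm)
  refine hτ (q s) hμτ ?_
  refine onto_partial (R := fun k z => ∃ i < q s, ∃ j < q s, k = tp i j ∧ ∃ a < ρ, R0 i a ∧
    ∃ c, ZFSet.pair a.toZFSet c.toZFSet ∈ f ∧ ∃ l, l = e s j ∧ (∃ t, t = q c ∧ l < t) ∧
      z = e c l) ?_ h0 (fun k hk z z' hz hz' => ?_) fun z hz => ?_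
  · refine DO.exLtc (R := fun i w => ∃ j < q s, w 0 = tp i j ∧ ∃ a < ρ, R0 i a ∧
      ∃ c, ZFSet.pair a.toZFSet c.toZFSet ∈ f ∧ ∃ l, l = e s j ∧ (∃ t, t = q c ∧ l < t) ∧
        w 1 = e c l) (q s) ?_
    refine DO.exLtc (R := fun j w => w 1 = tp (w 0) j ∧ ∃ a < ρ, R0 (w 0) a ∧
      ∃ c, ZFSet.pair a.toZFSet c.toZFSet ∈ f ∧ ∃ l, l = e s j ∧ (∃ t, t = q c ∧ l < t) ∧
        w 2 = e c l) (q s) ?_
    refine (DO.s3 (X := fun a b c => c = tp a b) do_tp 1 0 2).and ?_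
    refine DO.exLtc (R := fun a w => R0 (w 1) a ∧
      ∃ c, ZFSet.pair a.toZFSet c.toZFSet ∈ f ∧ ∃ l, l = e s (w 0) ∧ (∃ t, t = q c ∧ l < t) ∧
        w 3 = e c l) ρ ?_
    refine (DO.s2 hR0 2 0).and ?_
    refine DO.ex (R := fun c w => ZFSet.pair (w 0).toZFSet c.toZFSet ∈ f ∧
      ∃ l, l = e s (w 1) ∧ (∃ t, t = q c ∧ l < t) ∧ w 4 = e c l) ?_
    refine (DO.s2 (X := fun a c => ZFSet.pair a.toZFSet c.toZFSet ∈ f) hF 1 0).and ?_
    refine DO.ex (R := fun l w => l = e s (w 2) ∧ (∃ t, t = q (w 0) ∧ l < t) ∧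
      w 5 = e (w 0) l) ?_
    refine DO.and ?_ (DO.and ?_ ?_)
    · refine DO.sub s (R := fun s w => w 0 = e s (w 3)) ?_
      exact DO.s3 (X := fun a b c => c = e a b) h.de 0 4 1
    · refine DO.ex (R := fun t w => t = q (w 1) ∧ w 0 < t) ?_
      exact (DO.s2 (X := fun b t => t = q b) h.dq 2 0).and (DO.lt 1 0)
    · exact DO.s3 (X := fun a b c => c = e a b) h.de 1 0 6
  · obtain ⟨i, hi, j, hj, h4, a, ha, h5, c, h6, l, h7, -, h8⟩ := hz
    obtain ⟨i', hi', j', hj', h4', a', ha', h5', c', h6', l', h7', -, h8'⟩ := hz'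
    obtain ⟨e1, e2⟩ := tp_inj (h4.symm.trans h4')
    subst e1 e2
    have e3 := h2 i hi _ _ h5 h5'
    subst e3
    have e4 := hFu a ha _ _ h6 h6'
    subst e4
    rw [h8, h8', h7, h7']
  · have hz1 : max z s + 1 < τ := succ_lt hτ hω.le (max_lt hz hsτ)
    obtain ⟨a, ha, c, hc, hac⟩ := hcof _ hz1
    have hcτ : c < τ := hFt a ha c hac
    have hzc : z < c := ((le_max_left _ _).trans_lt (_root_.lt_add_one _)).trans_le hc
    obtain ⟨i, hi, hia⟩ := h3 a ha
    have hl : m c z < q c := h.em.ml c z hzc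
    have hls : m c z < s := hl.trans_le (hq c hcτ)
    refine ⟨tp i (m s (m c z)), hess h (q s) (h.card s) (qω h hωs) i hi _ (h.em.ml s _ hls),
      i, hi, m s (m c z), h.em.ml s _ hls, rfl, a, ha, hia, c, hac, m c z,
      (h.em.em s _ hls).symm, ⟨_, rfl, hl⟩, (h.em.em c z hzc).symm⟩

end Pool.Agent.H77.HDA.SRG
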