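import Pool.Agent.H7.HD.Targets11
import Pool.Agent.H7.HD.All6
import Pool.Agent.H66.HD9.EK
import Pool.Agent.H77.HDA.SRG

/-!
# MP_e37c09_lc, module COV: covering of a positive part of a regressive family
-/

set_option autoImplicit false

open Ordinal Cardinal Order Set
open scoped ZFSet

universe u

namespace Pool.Agent.H77.HDA.COV

open _root_.HD

theorem ne_mono {K : Cardinal.{u}} {lam lam' ν : Ordinal.{u}} (h : NE K lam ν) (hle : lam' ≤ lam) :
    NE K lam' ν :=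
  ⟨h.1, fun τ hτ => h.2 τ ⟨hτ.1, hτ.2.1.trans hle, hτ.2.2.1, hτ.2.2.2⟩⟩

/-- the conclusion of the theorem for `f`, `lam` and the set `C` -/
def Cn (en : Ordinal.{u} → ZFSet.{u}) (K : Cardinal.{u}) (lam : Ordinal.{u})
    (f : Ordinal.{u} → Ordinal.{u}) (C : Set Ordinal.{u}) : Prop :=
  ∀ ν ≤ K.ord, (ν ∈ C ∨ ν = K.ord) → NE K lam ν →
    ∀ (T : Set Ordinal.{u}) (g : Ordinal.{u} → Ordinal.{u}), Pos om ν T →
    (∀ γ ∈ T, γ < ν → g γ < γ) →
      ∃ z, ∃ i < ν, Pos om ν {γ | γ ∈ T ∧ ∃ j < i, af en z j = f (g γ)}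

theorem caseA {en : Ordinal.{u} → ZFSet.{u}} (hen : EN en) {K : Cardinal.{u}} (hK : K.IsRegular)
    (hK0 : ℵ₀ < K) {lam : Ordinal.{u}} (hlam : lam ≤ K.ord) (f : Ordinal.{u} → Ordinal.{u})
    (hf : ∀ x < K.ord, f x < lam) : ∃ C, Clb K.ord C ∧ Cn en K lam f C := by
  have hlim : IsSuccLimit K.ord := Cardinal.isSuccLimit_ord hK0.le
  have h1 : ∀ y < K.ord, ∃ t < K.ord, ∀ x ≤ y, f x < t := by
    intro y hy
    have hy1 : y + 1 < K.ord := hlim.add_one_lt hy
    obtain ⟨s, hs, hs2⟩ := Pool.Agent.H3.HD.exists_bound (ρ := K.ord) (τ := y + 1)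
      (by rw [hK.cof_ord]; exact Cardinal.lt_ord.1 hy1) f
      (fun i hi => (hf i (hi.trans hy1)).trans_le hlam)
    refine ⟨s + 1, hlim.add_one_lt hs, fun x hx => ?_⟩
    exact (hs2 x (hx.trans_lt (_root_.lt_add_one y))).trans_lt (_root_.lt_add_one s)
  choose! h hh1 hh2 using h1
  refine ⟨_, All.ve K hK hK0 h hh1, ?_⟩
  intro ν hν hνC hNE T g hT hg
  obtain ⟨a, ha, hP⟩ := All.uv om ν hNE.1 T g hT (fun b hb hb1 _ => hg b hb hb1)
  have haK : a < K.ord := ha.trans_le hν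
  obtain ⟨z, hz⟩ := (Pool.Agent.H66.HD9.FN.X en hen).2 (fun a => a) (DO.eq 1 0) K.ord
  refine ⟨z, h a, ?_, hP.mono fun γ _ hγ _ => ⟨hγ.1, f (g γ), ?_, ?_⟩⟩
  · rcases hνC with h1 | rfl
    · exact h1.2 a ha
    · exact hh1 a ha
  · exact hh2 a haK (g γ) (le_of_lt hγ.2)
  · exact hz _ ((hh2 a haK (g γ) (le_of_lt hγ.2)).trans (hh1 a haK))

theorem caseB {en : Ordinal.{u} → ZFSet.{u}} (hen : EN en) {K : Cardinal.{u}}
    {lam : Ordinal.{u}} {q : Ordinal.{u} → Ordinal.{u}}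
    {e m : Ordinal.{u} → Ordinal.{u} → Ordinal.{u}} (hq : QEM q e m)
    (f : Ordinal.{u} → Ordinal.{u}) (hf : ∀ x < K.ord, f x < lam) {C : Set Ordinal.{u}}
    (h : Cn en K (q lam) (fun x => m lam (f x)) C) : Cn en K lam f C := by
  intro ν hν hνC hNE T g hT hg
  obtain ⟨z2, i, hi, hP⟩ := h ν hν hνC (ne_mono hNE (hq.em.ql lam)) T g hT hg
  obtain ⟨z, hz⟩ := (Pool.Agent.H66.HD9.FN.X en hen).2 (fun a => e lam (af en z2 a)) (by
    refine (DO.ex (R := fun c w => c = af en z2 (w 0) ∧ w 1 = e lam c)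
      (DO.and ?_ ?_)).congr fun w => ?_
    · refine DO.sub z2 (R := fun z w => w 0 = af en z (w 1)) ?_
      exact DO.s3 (X := fun a z c => c = af en z a) (Pool.Agent.H66.HD9.FN.do_af hen) 2 0 1
    · refine DO.sub lam (R := fun l w => w 2 = e l (w 0)) ?_
      exact DO.s3 (X := fun a b c => c = e a b) hq.de 0 1 3
    · constructor
      · intro h
        exact ⟨_, rfl, h⟩
      · rintro ⟨c, rfl, h⟩
        exact h) K.ord
  refine ⟨z, i, hi, hP.mono fun γ hγν hγ _ => ?_⟩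
  obtain ⟨hγT, j, hj, hjz⟩ := hγ
  refine ⟨hγT, j, hj, ?_⟩
  rw [hz j ((hj.trans hi).trans_le hν), hjz]
  exact hq.em.em lam _ (hf _ (((hg γ hγT hγν).trans hγν).trans_le hν))

/-- the claim in the last case -/
def Cl3 (K : Cardinal.{u}) (lam : Ordinal.{u}) (f N : Ordinal.{u} → Ordinal.{u})
    (C : Set Ordinal.{u}) : Prop :=
  ∀ ν ≤ K.ord, (ν ∈ C ∨ ν = K.ord) → NE K lam ν →
    ∀ (T : Set Ordinal.{u}) (g : Ordinal.{u} → Ordinal.{u}), Pos om ν T →
    (∀ γ ∈ T, γ < ν → g γ < γ) →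
      ∃ l < lam.cof.ord, l < ν ∧ Pos om ν {γ | γ ∈ T ∧ f (g γ) < N l}

theorem claim1 {K : Cardinal.{u}} (hK : K.IsRegular) (hK0 : ℵ₀ < K) {lam : Ordinal.{u}}
    (hc : lam.cof = K) (f N : Ordinal.{u} → Ordinal.{u}) (hf : ∀ x < K.ord, f x < lam)
    (hN : ∀ y < lam, ∃ i < lam.cof.ord, y < N i) : ∃ C, Clb K.ord C ∧ Cl3 K lam f N C := by
  have hlim : IsSuccLimit K.ord := Cardinal.isSuccLimit_ord hK0.le
  have h1 : ∀ y < K.ord, ∃ l < K.ord, ∀ x ≤ y, f x < N l := by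
    intro y hy
    have hy1 : y + 1 < K.ord := hlim.add_one_lt hy
    obtain ⟨s, hs, hs2⟩ := Pool.Agent.H3.HD.exists_bound (ρ := lam) (τ := y + 1)
      (by rw [hc]; exact Cardinal.lt_ord.1 hy1) f
      (fun i hi => hf i (hi.trans hy1))
    obtain ⟨l, hl, hsl⟩ := hN s hs
    rw [hc] at hl
    exact ⟨l, hl, fun x hx => (hs2 x (hx.trans_lt (_root_.lt_add_one y))).trans_lt hsl⟩
  choose! L hL1 hL2 using h1
  refine ⟨_, All.ve K hK hK0 L hL1, ?_⟩
  intro ν hν hνC hNE T g hT hg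
  obtain ⟨a, ha, hP⟩ := All.uv om ν hNE.1 T g hT (fun b hb hb1 _ => hg b hb hb1)
  have haK : a < K.ord := ha.trans_le hν
  refine ⟨L a, ?_, ?_, hP.mono fun γ _ hγ _ => ⟨hγ.1, hL2 a haK _ (le_of_lt hγ.2)⟩⟩
  · rw [hc]
    exact hL1 a haK
  · rcases hνC with h1 | rfl
    · exact h1.2 a ha
    · exact hL1 a ha

theorem claim2 {K : Cardinal.{u}} (hK0 : ℵ₀ < K) {lam : Ordinal.{u}}
    (hKl : K.ord < lam) (hcard : CardHOD lam)
    (hc : lam.cof < K) (f N : Ordinal.{u} → Ordinal.{u}) (hf : ∀ x < K.ord, f x < lam)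
    (hN : ∀ y < lam, ∃ i < lam.cof.ord, y < N i) : ∃ C, Clb K.ord C ∧ Cl3 K lam f N C := by
  classical
  have hlim : IsSuccLimit K.ord := Cardinal.isSuccLimit_ord hK0.le
  have hcK : lam.cof.ord < K.ord := Cardinal.ord_lt_ord.2 hc
  refine ⟨{x | lam.cof.ord < x}, ⟨fun a ha => ⟨max a lam.cof.ord + 1,
    hlim.add_one_lt (max_lt ha hcK), (le_max_left _ _).trans_lt (_root_.lt_add_one _), ?_⟩,
    fun x hx hx0 h => ?_⟩, ?_⟩
  · exact lt_of_le_of_lt (le_max_right a lam.cof.ord) (_root_.lt_add_one _)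
  · obtain ⟨z, hz, -, hz2⟩ := h 0 hx0
    exact lt_trans hz2 hz
  intro ν hν hνC hNE T g hT hg
  have hθν : lam.cof.ord < ν := by
    rcases hνC with h1 | rfl
    · exact h1
    · exact hcK
  have hne : lam.cof ≠ ν.cof := hNE.2 lam ⟨hKl, le_rfl, hcard, hc.ne⟩
  have hfg : ∀ γ ∈ T, γ < ν → f (g γ) < lam := fun γ hγ hγν =>
    hf _ (((hg γ hγ hγν).trans hγν).trans_le hν)
  rcases lt_or_gt_of_ne hne with hlt | hgt
  · by_contra hcon
    push Not at hcon
    have h1 := All.va om ν hNE.1 lam.cof.ord (by rw [Cardinal.card_ord]; exact hlt)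
      (fun l => {γ | γ ∈ T ∧ f (g γ) < N l}) (fun l hl => hcon l hl (hl.trans hθν))
    refine h1 (hT.mono fun γ hγν hγ _ => ?_)
    obtain ⟨l, hl, hl2⟩ := hN _ (hfg γ hγ hγν)
    exact ⟨l, hl, hγ, hl2⟩
  · have hνlim : IsSuccLimit ν := Ordinal.one_lt_cof_iff.1 (Cardinal.one_lt_aleph0.trans hNE.1)
    obtain ⟨B, hB, -, e, he⟩ := All.vg ν hνlim
    have hl0 : 0 < lam := lt_of_le_of_lt bot_le hKl
    obtain ⟨s, hs, hs2⟩ := Pool.Agent.H3.HD.exists_bound (ρ := lam) (τ := ν.cof.ord)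
      (by rw [Cardinal.card_ord]; exact hgt) (fun a => if e a ∈ T ∧ e a < ν then f (g (e a)) else 0)
      (fun a _ => by
        by_cases h : e a ∈ T ∧ e a < ν
        · simp only [h, and_self, if_true]
          exact hfg _ h.1 h.2
        · simp only [h, if_false]
          exact hl0)
    obtain ⟨l, hl, hsl⟩ := hN s hs
    refine ⟨l, hl, hl.trans hθν, fun C hC => ?_⟩
    obtain ⟨b, hb, hbC, hbT, hbc⟩ := hT _ (All.ci ν C B hNE.1 hC hB)
    refine ⟨b, hb, hbC.1, ⟨hbT, ?_⟩, hbc⟩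
    obtain ⟨a, ha, hab⟩ := he b hbC.2
    have h1 := hs2 a ha
    have h2 : e a ∈ T ∧ e a < ν := by
      rw [hab]
      exact ⟨hbT, hb⟩
    simp only [h2, and_self, if_true] at h1
    rw [hab] at h1
    exact h1.trans_lt hsl

theorem X : T_COV.{u} := by
  classical
  intro en hen K lam hK hK0
  obtain ⟨q, e, m, hq⟩ := All.qe.{u}
  suffices h : ∀ lam : Ordinal.{u}, lam < (succ K).ord → ∀ f : Ordinal.{u} → Ordinal.{u},
      (∀ x < K.ord, f x < lam) → ∃ C, Clb K.ord C ∧ Cn en K lam f C by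
    intro hlam f hf
    exact h lam hlam f hf
  intro lam
  induction lam using WellFoundedLT.induction with
  | ind lam ih =>
    intro hlam f hf
    rcases le_or_gt lam K.ord with hle | hKl
    · exact caseA hen hK hK0 hle f hf
    by_cases hcard : CardHOD lam
    swap
    · have hql : q lam < lam := by
        refine lt_of_le_of_ne (hq.em.ql lam) fun he => hcard ?_
        rw [← he]
        exact hq.card lam
      obtain ⟨C, hC, hC2⟩ := ih (q lam) hql (hql.trans hlam) (fun x => m lam (f x))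
        (fun x hx => hq.em.ml lam _ (hf x hx))
      exact ⟨C, hC, caseB hen hq f hf hC2⟩
    -- `lam` is a cardinal of HOD
    have hωl : ω ≤ lam := by
      refine le_of_lt (lt_of_le_of_lt ?_ hKl)
      rw [← Cardinal.ord_aleph0]
      exact Cardinal.ord_le_ord.2 hK0.le
    have hl0 : 0 < lam := lt_of_le_of_lt bot_le hKl
    have hsucc : ∀ x < lam, x + 1 < lam := fun x hx =>
      Pool.Agent.H77.HDA.SRG.succ_lt hcard hωl hx
    have hlim : IsSuccLimit lam := by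
      refine ⟨fun hmin => ?_, fun y hy => hy.2 (_root_.lt_add_one y) (hsucc y hy.1)⟩
      have := hmin.eq_bot
      rw [this] at hl0
      exact absurd hl0 (lt_irrefl _)
    obtain ⟨n, hn1, -, hn3⟩ := Pool.Agent.H2.HD.UV.exists_seq hlim
    have hN : ∀ y < lam, ∃ i < lam.cof.ord, y < n i + 1 := by
      intro y hy
      obtain ⟨i, hi, h⟩ := hn3 y hy
      exact ⟨i, hi, h.trans (_root_.lt_add_one _)⟩
    -- the club sets of the induction hypothesis
    have hCs : ∀ l : Ordinal.{u}, ∃ C, Clb K.ord C ∧ (l < lam.cof.ord →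
        Cn en K (n l + 1) (fun x => if f x < n l + 1 then f x else 0) C) := by
      intro l
      by_cases hl : l < lam.cof.ord
      · obtain ⟨C, hC, hC2⟩ := ih (n l + 1) (hsucc _ (hn1 l hl)) ((hsucc _ (hn1 l hl)).trans hlam)
          (fun x => if f x < n l + 1 then f x else 0) (fun x _ => by
            by_cases h : f x < n l + 1
            · simp only [h, if_true]
            · simp only [h, if_false]
              exact lt_of_le_of_lt bot_le (_root_.lt_add_one (n l)))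
        exact ⟨C, hC, fun _ => hC2⟩
      · obtain ⟨C, hC, -⟩ := caseA hen hK hK0 le_rfl (fun _ => (0 : Ordinal.{u}))
          (fun x hx => lt_of_le_of_lt bot_le hx)
        exact ⟨C, hC, fun h => absurd h hl⟩
    choose Cs hCs1 hCs2 using hCs
    have hcof : lam.cof ≤ K := by
      refine (Ordinal.cof_le_card lam).trans ?_
      exact Order.lt_succ_iff.1 (Cardinal.lt_ord.1 hlam)
    have hclaim : ∃ C, Clb K.ord C ∧ Cl3 K lam f (fun i => n i + 1) C := by
      rcases hcof.eq_or_lt with h | h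
      · exact claim1 hK hK0 h f _ hf hN
      · exact claim2 hK0 hKl hcard h f _ hf hN
    obtain ⟨C', hC', hcl⟩ := hclaim
    have hK0' : ℵ₀ < K.ord.cof := by
      rw [hK.cof_ord]
      exact hK0
    refine ⟨_, All.ci K.ord _ _ hK0' (Pool.Agent.H33.HD.VD.diag hK hK0 Cs (fun a _ => hCs1 a)) hC',
      ?_⟩
    intro ν hν hνC hNE T g hT hg
    obtain ⟨l, hl, hlν, hP⟩ := hcl ν hν (hνC.imp (fun h => h.2) id) hNE T g hT hg
    obtain ⟨z, i, hi, hP2⟩ := hCs2 l hl ν hν (hνC.imp (fun h => h.1.2 l hlν) id)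
      (ne_mono hNE (hsucc _ (hn1 l hl)).le) {γ | γ ∈ T ∧ f (g γ) < n l + 1} g hP
      (fun γ hγ hγν => hg γ hγ.1 hγν)
    refine ⟨z, i, hi, hP2.mono fun γ _ hγ _ => ?_⟩
    obtain ⟨⟨hγT, hγl⟩, j, hj, hjz⟩ := hγ
    simp only [hγl, if_true] at hjz
    exact ⟨hγT, j, hj, hjz⟩

end Pool.Agent.H77.HDA.COV
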