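import Pool.Agent.H7.HD.Targets11
import Pool.Agent.H7.HD.All6

/-!
# MP_e37c09_lc, module EX: the exceptional cofinalities are less than `D`
-/

set_option autoImplicit false

open Ordinal Cardinal Order Set
open scoped ZFSet

universe u

namespace Pool.Agent.H77.HDA.EX

open _root_.HD

theorem X (hSRG : T_SRG.{u}) : T_EX.{u} := by
  classical
  intro D K lam hD hD0 hK hDK hlam hfew τ hτ
  obtain ⟨hKτ, hτl, hτc, hτK⟩ := hτ
  by_contra hcon
  push Not at hcon
  have hK0 : ℵ₀ < K := hD0.trans hDK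
  by_cases hunb : ∀ σ < τ, ∃ x, σ < x ∧ x < τ ∧ CardHOD x
  · obtain ⟨τ', hτ', e, he⟩ := hfew
    have hcard : τ'.card < τ.cof := by
      refine lt_of_lt_of_le ?_ hcon
      exact Cardinal.lt_ord.1 hτ'
    have h0 : 0 < τ := lt_of_le_of_lt bot_le hKτ
    obtain ⟨t, ht, hb⟩ := Pool.Agent.H3.HD.exists_bound (ρ := τ) (τ := τ') hcard
      (fun i => if e i < τ then e i else 0) (fun i _ => by
        by_cases h : e i < τ
        · simp only [h, if_true]
        · simp only [h, if_false]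
          exact h0)
    obtain ⟨x, hx1, hx2, hx3⟩ := hunb (max t K.ord) (max_lt ht hKτ)
    obtain ⟨i, hi, hix⟩ := he x ⟨(le_max_right _ _).trans_lt hx1, hx2.le.trans hτl, hx3⟩
    have h1 := hb i hi
    rw [hix] at h1
    simp only [hx2, if_true] at h1
    exact absurd h1 (not_le.2 ((le_max_left _ _).trans_lt hx1))
  · push Not at hunb
    obtain ⟨σ, hσ, hσ2⟩ := hunb
    have hω : ω < τ := by
      refine lt_of_le_of_lt ?_ hKτ
      rw [← Cardinal.ord_aleph0]
      exact Cardinal.ord_le_ord.2 hK0.le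
    have hreg : RegHOD τ := hSRG τ hτc hω ⟨σ, hσ, fun x h1 h2 => hσ2 x h1 h2⟩
    have hfew2 : Few τ.cof.ord (SH K.ord τ) := by
      rw [few_iff] at hfew ⊢
      have h1 : SH K.ord τ ⊆ insert K.ord {τ | K.ord < τ ∧ τ ≤ lam ∧ CardHOD τ} := by
        rintro x ⟨hx1, hx2, hx3⟩
        rcases hx1.eq_or_lt with h | h
        · exact Or.inl h.symm
        · exact Or.inr ⟨h, hx2.le.trans hτl, hx3⟩
      refine (Cardinal.mk_le_mk_of_subset h1).trans_lt ?_
      refine (Cardinal.mk_insert_le).trans_lt ?_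
      have h2 : ℵ₀ ≤ Cardinal.lift.{u + 1} τ.cof := by
        rw [← Cardinal.lift_aleph0.{u + 1, u}]
        exact Cardinal.lift_le.2 (hD0.le.trans hcon)
      refine Cardinal.add_lt_of_lt h2 (hfew.trans_le (Cardinal.lift_le.2 hcon)) ?_
      exact lt_of_lt_of_le Cardinal.one_lt_aleph0 h2
    rcases All.th K τ hK hK0 hreg hKτ (hτl.trans_lt hlam) hfew2 with h | h
    · rw [h] at hcon
      exact absurd hD0 (not_lt.2 hcon)
    · exact hτK h

end Pool.Agent.H77.HDA.EX
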